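import Pool.Agent.P8H49.GM.Stm
import Pool.Agent.R521.GG.H1

set_option autoImplicit false

/-!
# Project GM (helper49), package L5: few edges at few vertices
-/

namespace Pool.Agent.P8H79.GM

open Finset
open Pool.Agent.R521.GG
open Pool.Agent.P8H49.GM (S_L5)

theorem t_l5 (hm : S_mom) (hc : S_codeg) : S_L5 := by
  obtain ⟨C₁, hC₁, n₁, h1⟩ := hc
  obtain ⟨K₁, hK₁, h3⟩ := SS_sum2 hm 1
  obtain ⟨n₂, hn₂, h2⟩ := LL_large 1
  refine ⟨1 + C₁ * K₁, by positivity, n₁ + n₂, fun n hn E hE => ?_⟩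
  have hn2 : 2 ≤ n := by omega
  have hnr : (0 : ℝ) < n := by exact_mod_cast (by omega : 0 < n)
  have hlog : 0 < Real.log n := Real.log_pos (by exact_mod_cast (by omega : 1 < n))
  obtain ⟨hLL, hLn⟩ := h2 n (by omega)
  have hL0 : 0 < LL n := by linarith
  have hCK : 0 < C₁ * K₁ := by positivity
  -- the sum of the squares of all degrees
  have hsq : ∑ b ∈ Icc 1 n, (dg (Icc 1 n) b : ℝ) ^ 2 ≤ (1 + C₁ * K₁) * (n * LL n ^ 2) := by
    rw [sum_dg_sq]
    have e1 : ∀ a ∈ Icc 1 n, ∑ d ∈ Icc 1 n, (cd (Icc 1 n) a d : ℝ) =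
        dg (Icc 1 n) a + ∑ d ∈ (Icc 1 n).filter (fun d => d ≠ a), (cd (Icc 1 n) a d : ℝ) := by
      intro a ha
      rw [filter_ne', ← cd_self (Icc 1 n) a]
      exact (add_sum_erase (Icc 1 n) (fun d => (cd (Icc 1 n) a d : ℝ)) ha).symm
    rw [sum_congr rfl e1, sum_add_distrib]
    have e2 : ∑ a ∈ Icc 1 n, (dg (Icc 1 n) a : ℝ) ≤ n * n := by
      calc ∑ a ∈ Icc 1 n, (dg (Icc 1 n) a : ℝ) ≤ ∑ _a ∈ Icc 1 n, (n : ℝ) := by
            apply sum_le_sum
            intro a _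
            have h5 := dg_le (Icc 1 n) a
            rw [Nat.card_Icc, Nat.add_sub_cancel] at h5
            exact_mod_cast h5
        _ = n * n := by
            rw [sum_const, Nat.card_Icc, Nat.add_sub_cancel, nsmul_eq_mul]
    have e3 : ∑ a ∈ Icc 1 n, ∑ d ∈ (Icc 1 n).filter (fun d => d ≠ a), (cd (Icc 1 n) a d : ℝ) ≤
        C₁ * (n / Real.log n ^ 4) * (K₁ * (n : ℝ) ^ 2) := by
      calc ∑ a ∈ Icc 1 n, ∑ d ∈ (Icc 1 n).filter (fun d => d ≠ a), (cd (Icc 1 n) a d : ℝ)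
          ≤ ∑ a ∈ Icc 1 n, ∑ d ∈ (Icc 1 n).filter (fun d => d ≠ a), C₁ * (n / Real.log n ^ 4) * SS a d ^ 1 := by
            apply sum_le_sum
            intro a ha
            apply sum_le_sum
            intro d hd
            rw [mem_filter] at hd
            rw [pow_one]
            exact h1 n (by omega) a ha d hd.1 (Ne.symm hd.2)
        _ = C₁ * (n / Real.log n ^ 4) * ∑ a ∈ Icc 1 n, ∑ d ∈ (Icc 1 n).filter (fun d => d ≠ a), SS a d ^ 1 := by
            rw [mul_sum]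
            apply sum_congr rfl
            intro a _
            rw [mul_sum]
        _ ≤ _ := mul_le_mul_of_nonneg_left (h3 n) (by positivity)
    have e4 : C₁ * (n / Real.log n ^ 4) * (K₁ * (n : ℝ) ^ 2) = C₁ * K₁ * (n * LL n ^ 2) := by
      unfold LL
      rw [div_pow, ← pow_mul]
      ring
    have e5 : (n : ℝ) * n ≤ n * LL n ^ 2 := by
      apply mul_le_mul_of_nonneg_left _ hnr.le
      linarith
    rw [e4] at e3
    linarith
  have hX0 : 0 ≤ ∑ b ∈ E, (dg (Icc 1 n) b : ℝ) := sum_nonneg fun b _ => Nat.cast_nonneg _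
  have hCS : (∑ b ∈ E, (dg (Icc 1 n) b : ℝ)) ^ 2 ≤ E.card * ((1 + C₁ * K₁) * (n * LL n ^ 2)) := by
    refine sq_sum_le_card_mul_sum_sq.trans (mul_le_mul_of_nonneg_left ?_ (Nat.cast_nonneg _))
    refine le_trans ?_ hsq
    exact sum_le_sum_of_subset_of_nonneg hE fun b _ _ => sq_nonneg _
  rw [← pow_le_pow_iff_left₀ hX0 (by positivity) (two_ne_zero)]
  refine hCS.trans ?_
  have e6 : ((1 + C₁ * K₁) * √((E.card : ℝ) * n) * LL n) ^ 2 =
      (1 + C₁ * K₁) * (E.card * ((1 + C₁ * K₁) * (n * LL n ^ 2))) := by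
    rw [mul_pow, mul_pow, Real.sq_sqrt (by positivity)]
    ring
  rw [e6]
  have h6 : 0 ≤ (E.card : ℝ) * ((1 + C₁ * K₁) * (n * LL n ^ 2)) := by positivity
  nlinarith

end Pool.Agent.P8H79.GM
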